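import Mathlib

namespace Pool.Agent.Results.MP_ae49d3_an.OneStepShift

open MeasureTheory Set Filter Topology

/-- The `L²[0,1]` inner product (Lebesgue measure) of two continuous functions. -/
noncomputable def ip (f g : C(unitInterval, ℝ)) : ℝ := ∫ x, f x * g x

/-- The partial sum of the expansion of `f` in `φ` over the first `N + 1` terms. -/
noncomputable def partialSum (φ : ℕ → C(unitInterval, ℝ)) (f : C(unitInterval, ℝ)) (N : ℕ) :
    C(unitInterval, ℝ) :=
  ∑ n ∈ Finset.range (N + 1), (ip f (φ n) / ip (φ n) (φ n)) • φ n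

/-- An orthogonal system of nonzero continuous functions that is closed in `C[0,1]`. -/
def ClosedOrthogonal (φ : ℕ → C(unitInterval, ℝ)) : Prop :=
  (∀ m n, m ≠ n → ip (φ m) (φ n) = 0) ∧ (∀ n, φ n ≠ 0) ∧
    Dense (Submodule.span ℝ (Set.range φ) : Set C(unitInterval, ℝ))

/-- The expansion of `f` in `φ` is uniformly summable to `f` by the matrix `c`. -/
def UniformlySummable (φ : ℕ → C(unitInterval, ℝ)) (c : ℕ → ℕ → ℝ) (f : C(unitInterval, ℝ)) :
    Prop :=
  ∃ σ : ℕ → unitInterval → ℝ,
    (∀ m, TendstoUniformly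
      (fun (K : ℕ) (x : unitInterval) => ∑ N ∈ Finset.range K, c m N * partialSum φ f N x)
      (σ m) atTop) ∧
    TendstoUniformly σ (fun x => f x) atTop

lemma integ (f g : C(unitInterval, ℝ)) : Integrable (fun x => f x * g x) :=
  (f.continuous.mul g.continuous).integrable_of_hasCompactSupport
    (HasCompactSupport.of_compactSpace _)

lemma ip_comm (f g : C(unitInterval, ℝ)) : ip f g = ip g f := by
  unfold ip
  simp only [mul_comm]

lemma ip_add (f g h : C(unitInterval, ℝ)) : ip (f + g) h = ip f h + ip g h := by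
  unfold ip
  rw [← integral_add (integ f h) (integ g h)]
  simp only [ContinuousMap.add_apply, add_mul]

lemma ip_smul (a : ℝ) (f h : C(unitInterval, ℝ)) : ip (a • f) h = a • ip f h := by
  unfold ip
  rw [smul_eq_mul, ← integral_const_mul]
  simp only [ContinuousMap.smul_apply, smul_eq_mul, mul_assoc]

/-- The inner product as a bilinear map. -/
noncomputable def B : C(unitInterval, ℝ) →ₗ[ℝ] C(unitInterval, ℝ) →ₗ[ℝ] ℝ :=
  LinearMap.mk₂ ℝ ip ip_add ip_smul
    (fun f g h => by rw [ip_comm, ip_add, ip_comm g, ip_comm h])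
    (fun a f h => by rw [ip_comm, ip_smul, ip_comm h])

lemma B_apply (f g : C(unitInterval, ℝ)) : B f g = ip f g := rfl

lemma B_comm (f g : C(unitInterval, ℝ)) : B f g = B g f := ip_comm f g

lemma openPos : (volume : Measure unitInterval).IsOpenPosMeasure := by
  refine ⟨fun U hU hne h0 => ?_⟩
  obtain ⟨a, b, hab, hs⟩ := hU.exists_Ioo_subset hne
  have h1 := measure_mono_null hs h0
  rw [unitInterval.volume_Ioo, ENNReal.ofReal_eq_zero] at h1
  have h2 : (a : ℝ) < b := hab
  linarith

lemma B_pos {f : C(unitInterval, ℝ)} (hf : f ≠ 0) : 0 < B f f := by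
  have := openPos
  obtain ⟨x, hx⟩ : ∃ x, f x ≠ 0 := by
    by_contra h
    push Not at h
    exact hf (ContinuousMap.ext h)
  exact (f.continuous.mul f.continuous).integral_pos_of_hasCompactSupport_nonneg_nonzero
    (HasCompactSupport.of_compactSpace _) (fun y => mul_self_nonneg _) (mul_ne_zero hx hx)

lemma B_cont (G : C(unitInterval, ℝ)) : Continuous fun q : C(unitInterval, ℝ) => B q G := by
  refine AddMonoidHomClass.continuous_of_bound (B.flip G) ‖G‖ (fun q => ?_)
  have h : ‖∫ x, q x * G x‖ ≤ (‖G‖ * ‖q‖) * (volume : Measure unitInterval).real univ := by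
    refine norm_integral_le_of_norm_le_const (Eventually.of_forall fun x => ?_)
    rw [norm_mul, mul_comm]
    exact mul_le_mul (G.norm_coe_le_norm x) (q.norm_coe_le_norm x) (norm_nonneg _) (norm_nonneg _)
  simpa [B_apply, ip] using h

/-- Gram-Schmidt. -/
noncomputable def gs (u : ℕ → C(unitInterval, ℝ)) (n : ℕ) : C(unitInterval, ℝ) :=
  u n - ∑ j : Fin n, (B (u n) (gs u j) / B (gs u j) (gs u j)) • gs u j
termination_by n
decreasing_by all_goals exact j.2

lemma gs_def (u : ℕ → C(unitInterval, ℝ)) (n : ℕ) :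
    gs u n = u n - ∑ j ∈ Finset.range n, (B (u n) (gs u j) / B (gs u j) (gs u j)) • gs u j := by
  rw [gs, Finset.sum_range]

lemma span_mono (u : ℕ → C(unitInterval, ℝ)) {m n : ℕ} (h : m ≤ n) :
    Submodule.span ℝ (u '' Iio m) ≤ Submodule.span ℝ (u '' Iio n) :=
  Submodule.span_mono (image_mono (Iio_subset_Iio h))

lemma mem_level (u : ℕ → C(unitInterval, ℝ)) {j n : ℕ} (h : j < n) :
    u j ∈ Submodule.span ℝ (u '' Iio n) :=
  Submodule.subset_span ⟨j, h, rfl⟩

lemma gs_mem (u : ℕ → C(unitInterval, ℝ)) (n : ℕ) :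
    gs u n - u n ∈ Submodule.span ℝ (u '' Iio n) := by
  induction n using Nat.strong_induction_on with
  | _ n ih =>
    rw [gs_def, sub_sub_cancel_left]
    refine neg_mem (Submodule.sum_mem _ fun j hj => Submodule.smul_mem _ _ ?_)
    have hj' := Finset.mem_range.1 hj
    have h := add_mem (span_mono u hj'.le (ih j hj')) (mem_level u hj')
    simpa using h

lemma gs_mem' (u : ℕ → C(unitInterval, ℝ)) {j n : ℕ} (h : j < n) :
    gs u j ∈ Submodule.span ℝ (u '' Iio n) := by
  have h := add_mem (span_mono u h.le (gs_mem u j)) (mem_level u h)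
  simpa using h

lemma gs_ne {u : ℕ → C(unitInterval, ℝ)} (hli : LinearIndependent ℝ u) (n : ℕ) : gs u n ≠ 0 := by
  intro h
  have h1 := gs_mem u n
  rw [h, zero_sub, neg_mem_iff] at h1
  exact hli.notMem_span_image (by simp) h1

lemma gs_orth' {u : ℕ → C(unitInterval, ℝ)} (hli : LinearIndependent ℝ u) (n : ℕ) :
    ∀ m, m < n → B (gs u n) (gs u m) = 0 := by
  induction n using Nat.strong_induction_on with
  | _ n ih =>
    intro m hm
    rw [gs_def u n, map_sub, map_sum, LinearMap.sub_apply, LinearMap.sum_apply,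
      Finset.sum_eq_single m]
    · rw [map_smul, LinearMap.smul_apply, smul_eq_mul,
        div_mul_cancel₀ _ (B_pos (gs_ne hli m)).ne', sub_self]
    · intro j hj hjm
      have hj' := Finset.mem_range.1 hj
      rw [map_smul, LinearMap.smul_apply, smul_eq_mul]
      rcases lt_or_gt_of_ne hjm with h | h
      · rw [B_comm (gs u j) (gs u m), ih m hm j h, mul_zero]
      · rw [ih j hj' m h, mul_zero]
    · intro h
      exact absurd (Finset.mem_range.2 hm) h

lemma gs_orth {u : ℕ → C(unitInterval, ℝ)} (hli : LinearIndependent ℝ u) (m n : ℕ) (h : m ≠ n) :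
    B (gs u m) (gs u n) = 0 := by
  rcases lt_or_gt_of_ne h with h | h
  · rw [B_comm, gs_orth' hli n m h]
  · exact gs_orth' hli m n h

lemma gs_zero (u : ℕ → C(unitInterval, ℝ)) : gs u 0 = u 0 := by
  rw [gs_def]; simp

lemma u_mem (u : ℕ → C(unitInterval, ℝ)) (n : ℕ) :
    u n ∈ Submodule.span ℝ (range (gs u)) := by
  have h : u n = gs u n +
      ∑ j ∈ Finset.range n, (B (u n) (gs u j) / B (gs u j) (gs u j)) • gs u j := by
    rw [gs_def u n, sub_add_cancel]
  rw [h]
  exact add_mem (Submodule.subset_span ⟨n, rfl⟩)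
    (Submodule.sum_mem _ fun j _ => Submodule.smul_mem _ _ (Submodule.subset_span ⟨j, rfl⟩))

lemma exists_level (e : ℕ → C(unitInterval, ℝ)) {q : C(unitInterval, ℝ)}
    (hq : q ∈ Submodule.span ℝ (range e)) : ∃ n, q ∈ Submodule.span ℝ (e '' Iio n) := by
  induction hq using Submodule.span_induction with
  | mem x hx =>
    obtain ⟨j, rfl⟩ := hx
    exact ⟨j + 1, mem_level e (Nat.lt_succ_self j)⟩
  | zero => exact ⟨0, zero_mem _⟩
  | add x y _ _ hx hy =>
    obtain ⟨m, hm⟩ := hx
    obtain ⟨n, hn⟩ := hy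
    exact ⟨max m n, add_mem (span_mono e (le_max_left _ _) hm) (span_mono e (le_max_right _ _) hn)⟩
  | smul a x _ hx =>
    obtain ⟨m, hm⟩ := hx
    exact ⟨m, Submodule.smul_mem _ _ hm⟩

/-- A bump at `t`. -/
noncomputable def bump (t : unitInterval) (N : ℕ) : C(unitInterval, ℝ) :=
  ⟨fun x => (1 - dist x t) ^ N, by fun_prop⟩

lemma dist_le (x t : unitInterval) : dist x t ≤ 1 := by
  rw [Subtype.dist_eq, Real.dist_eq, abs_le]
  have h1 := x.2.1
  have h2 := x.2.2
  have h3 := t.2.1
  have h4 := t.2.2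
  constructor <;> linarith

lemma bump_nonneg (t : unitInterval) (N : ℕ) (x : unitInterval) : 0 ≤ bump t N x :=
  pow_nonneg (sub_nonneg.2 (dist_le x t)) N

lemma bump_le (t : unitInterval) (N : ℕ) (x : unitInterval) : bump t N x ≤ 1 :=
  pow_le_one₀ (sub_nonneg.2 (dist_le x t)) (by have := dist_nonneg (x := x) (y := t); linarith)

lemma bump_self (t : unitInterval) (N : ℕ) : bump t N t = 1 := by
  simp [bump]

lemma bump_tendsto (t : unitInterval) (H : C(unitInterval, ℝ)) :
    Tendsto (fun N => B (bump t N) H) atTop (𝓝 0) := by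
  have h : Tendsto (fun N => ∫ x, bump t N x * H x) atTop
      (𝓝 (∫ _x : unitInterval, (0 : ℝ))) := by
    refine tendsto_integral_of_dominated_convergence (fun _ => ‖H‖)
      (fun N => (integ _ _).aestronglyMeasurable) (integrable_const _) (fun N => ?_) ?_
    · refine Eventually.of_forall fun x => ?_
      rw [norm_mul, Real.norm_of_nonneg (bump_nonneg t N x)]
      calc bump t N x * ‖H x‖ ≤ 1 * ‖H‖ :=
            mul_le_mul (bump_le t N x) (H.norm_coe_le_norm x) (norm_nonneg _) zero_le_one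
        _ = ‖H‖ := one_mul _
    · have hae : ∀ᵐ x : unitInterval, x ≠ t := by
        rw [ae_iff]
        simp
      filter_upwards [hae] with x hx
      have h0 : 0 < dist x t := dist_pos.2 hx
      have h1 := tendsto_pow_atTop_nhds_zero_of_lt_one (sub_nonneg.2 (dist_le x t))
        (by linarith : 1 - dist x t < 1)
      have h2 := h1.mul_const (H x)
      rw [zero_mul] at h2
      exact h2
  simpa [B_apply, ip] using h

lemma modify (e : ℕ → C(unitInterval, ℝ))
    (hd : Dense (Submodule.span ℝ (range e) : Set C(unitInterval, ℝ))) (t : unitInterval)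
    (G q : C(unitInterval, ℝ)) (hq : ‖q‖ < 1) (a : ℝ) (ha : |a| < 1) (ε : ℝ) (hε : 0 < ε)
    (n₀ : ℕ) :
    ∃ n q', n₀ ≤ n ∧ q' ∈ Submodule.span ℝ (e '' Iio n) ∧ ‖q'‖ < 1 ∧ |q' t - a| < ε ∧
      |B q' G - B q G| < ε := by
  have h1 := bump_tendsto t ((ContinuousMap.const _ a - q) * G)
  obtain ⟨N, hN⟩ := ((Metric.tendsto_nhds.1 h1) ε hε).exists
  rw [Real.dist_eq, sub_zero] at hN
  have hopen : IsOpen {p : C(unitInterval, ℝ) | ‖p‖ < 1 ∧ |p t - a| < ε ∧ |B p G - B q G| < ε} := by
    have o1 : IsOpen {p : C(unitInterval, ℝ) | ‖p‖ < 1} :=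
      isOpen_lt continuous_norm continuous_const
    have o2 : IsOpen {p : C(unitInterval, ℝ) | |p t - a| < ε} :=
      isOpen_lt ((continuous_eval_const t).sub continuous_const).abs continuous_const
    have o3 : IsOpen {p : C(unitInterval, ℝ) | |B p G - B q G| < ε} :=
      isOpen_lt ((B_cont G).sub continuous_const).abs continuous_const
    exact o1.and (o2.and o3)
  have hne : {p : C(unitInterval, ℝ) | ‖p‖ < 1 ∧ |p t - a| < ε ∧ |B p G - B q G| < ε}.Nonempty := by
    refine ⟨q + bump t N * (ContinuousMap.const _ a - q), ?_, ?_, ?_⟩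
    · refine lt_of_le_of_lt ((ContinuousMap.norm_le _ (le_max_of_le_left (norm_nonneg q))).2 ?_)
        (max_lt hq ha)
      intro x
      have b0 := bump_nonneg t N x
      have b1 := bump_le t N x
      have c1 : |q x| ≤ max ‖q‖ |a| := le_max_of_le_left (q.norm_coe_le_norm x)
      have c2 : |a| ≤ max ‖q‖ |a| := le_max_right _ _
      simp only [ContinuousMap.add_apply, ContinuousMap.mul_apply, ContinuousMap.sub_apply,
        ContinuousMap.const_apply, Real.norm_eq_abs]
      rw [abs_le] at c1 c2 ⊢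
      constructor <;> nlinarith [c1.1, c1.2, c2.1, c2.2]
    · simp [bump_self, hε]
    · rw [map_add, LinearMap.add_apply, add_sub_cancel_left]
      have h2 : B (bump t N * (ContinuousMap.const _ a - q)) G =
          B (bump t N) ((ContinuousMap.const _ a - q) * G) := by
        simp only [B_apply, ip, ContinuousMap.mul_apply, mul_assoc]
      rw [h2]
      exact hN
  obtain ⟨p, hp1, hp2⟩ := hd.inter_open_nonempty _ hopen hne
  obtain ⟨n, hn⟩ := exists_level e hp2
  exact ⟨max n₀ n, p, le_max_left _ _, span_mono e (le_max_right _ _) hn, hp1⟩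

/-- The partial reproducing kernel at `t` over the index set `T`. -/
noncomputable def ker (e : ℕ → C(unitInterval, ℝ)) (t : unitInterval) (T : Finset ℕ) :
    C(unitInterval, ℝ) :=
  ∑ j ∈ T, (e j t / B (e j) (e j)) • e j

section Orth

variable {e : ℕ → C(unitInterval, ℝ)} (ho : ∀ m n, m ≠ n → B (e m) (e n) = 0) (hn : ∀ n, e n ≠ 0)
  (t : unitInterval)

include ho hn

lemma B_ker (T : Finset ℕ) (i : ℕ) : B (e i) (ker e t T) = if i ∈ T then e i t else 0 := by
  unfold ker
  rw [map_sum]
  split_ifs with h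
  · rw [Finset.sum_eq_single i]
    · rw [map_smul, smul_eq_mul, div_mul_cancel₀ _ (B_pos (hn i)).ne']
    · intro j _ hji
      rw [map_smul, ho i j hji.symm, smul_zero]
    · intro h'
      exact absurd h h'
  · refine Finset.sum_eq_zero fun j hj => ?_
    rw [map_smul, ho i j (fun h' => h (h' ▸ hj)), smul_zero]

lemma B_ker_range (n : ℕ) {q : C(unitInterval, ℝ)} (hq : q ∈ Submodule.span ℝ (e '' Iio n)) :
    B q (ker e t (Finset.range n)) = q t := by
  induction hq using Submodule.span_induction with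
  | mem x hx =>
    obtain ⟨j, hj, rfl⟩ := hx
    rw [B_ker ho hn, if_pos (Finset.mem_range.2 hj)]
  | zero => simp
  | add x y _ _ hx hy => rw [map_add, LinearMap.add_apply, hx, hy, ContinuousMap.add_apply]
  | smul a x _ hx => rw [map_smul, LinearMap.smul_apply, hx, ContinuousMap.smul_apply]

lemma step (hd : Dense (Submodule.span ℝ (range e) : Set C(unitInterval, ℝ)))
    (n : ℕ) (T : Finset ℕ) (q : C(unitInterval, ℝ)) (hT : ∀ j ∈ T, j < n) (hq : ‖q‖ < 1) :
    ∃ (n' : ℕ) (T' : Finset ℕ) (q' : C(unitInterval, ℝ)), n ≤ n' ∧ (∀ j ∈ T', j < n') ∧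
      (∀ j, j < n → (j ∈ T' ↔ j ∈ T)) ∧ q' ∈ Submodule.span ℝ (e '' Iio n') ∧ ‖q'‖ < 1 ∧
      B q (ker e t T) + 1 / 4 ≤ B q' (ker e t T') := by
  obtain ⟨n₁, q₁, h1, h2, h3, h4, h5⟩ :=
    modify e hd t (ker e t T) q hq 0 (by simp) (1 / 16) (by norm_num) n
  obtain ⟨n₂, q₂, k1, k2, k3, k4, k5⟩ :=
    modify e hd t (ker e t T - ker e t (Finset.range n₁)) q₁ h3 (1 / 2)
      (by rw [abs_of_pos] <;> norm_num) (1 / 16) (by norm_num) n₁
  refine ⟨n₂, T ∪ Finset.Ico n₁ n₂, q₂, h1.trans k1, ?_, ?_, k2, k3, ?_⟩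
  · intro j hj
    rcases Finset.mem_union.1 hj with h | h
    · exact lt_of_lt_of_le (hT j h) (h1.trans k1)
    · exact (Finset.mem_Ico.1 h).2
  · intro j hj
    rw [Finset.mem_union, Finset.mem_Ico]
    constructor
    · rintro (h | h)
      · exact h
      · omega
    · exact Or.inl
  · have hdis : Disjoint T (Finset.Ico n₁ n₂) := by
      rw [Finset.disjoint_left]
      intro j hj hj'
      have := hT j hj
      have := (Finset.mem_Ico.1 hj').1
      omega
    have hk : ker e t (T ∪ Finset.Ico n₁ n₂) =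
        (ker e t T - ker e t (Finset.range n₁)) + ker e t (Finset.range n₂) := by
      unfold ker
      rw [Finset.sum_union hdis, Finset.sum_Ico_eq_sub _ k1]
      abel
    rw [hk, map_add, B_ker_range ho hn t n₂ k2]
    have h6 : B q₁ (ker e t T - ker e t (Finset.range n₁)) = B q₁ (ker e t T) - q₁ t := by
      rw [map_sub, B_ker_range ho hn t n₁ h2]
    rw [h6] at k5
    rw [abs_lt] at h4 h5 k4 k5
    linarith [h4.1, h4.2, h5.1, h5.2, k4.1, k4.2, k5.1, k5.2]

open Classical in
lemma exists_set (hd : Dense (Submodule.span ℝ (range e) : Set C(unitInterval, ℝ))) :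
    ∃ S : ℕ → Prop, S 0 ∧ ∀ k : ℕ, ∃ (n : ℕ) (q : C(unitInterval, ℝ)),
      q ∈ Submodule.span ℝ (e '' Iio n) ∧ ‖q‖ < 1 ∧
      (k : ℝ) / 4 ≤ B q (ker e t ((Finset.range n).filter S)) := by
  let P : ℕ × Finset ℕ × C(unitInterval, ℝ) → Prop := fun x =>
    (∀ j ∈ x.2.1, j < x.1) ∧ x.2.2 ∈ Submodule.span ℝ (e '' Iio x.1) ∧ ‖x.2.2‖ < 1
  have hstep : ∀ x : {x // P x}, ∃ y : {x // P x}, x.1.1 ≤ y.1.1 ∧
      (∀ j, j < x.1.1 → (j ∈ y.1.2.1 ↔ j ∈ x.1.2.1)) ∧
      B x.1.2.2 (ker e t x.1.2.1) + 1 / 4 ≤ B y.1.2.2 (ker e t y.1.2.1) := by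
    rintro ⟨⟨n, T, q⟩, h1, -, h3⟩
    obtain ⟨n', T', q', k1, k2, k3, k4, k5, k6⟩ := step ho hn t hd n T q h1 h3
    exact ⟨⟨(n', T', q'), k2, k4, k5⟩, k1, k3, k6⟩
  choose F hF using hstep
  let x0 : {x // P x} := ⟨(1, {0}, 0), by simp, zero_mem _, by simp⟩
  let x : ℕ → {x // P x} := fun k => F^[k] x0
  have hx : ∀ k, x (k + 1) = F (x k) := fun k => Function.iterate_succ_apply' F k x0
  have hmono : ∀ k l, k ≤ l → (x k).1.1 ≤ (x l).1.1 ∧
      ∀ j, j < (x k).1.1 → (j ∈ (x l).1.2.1 ↔ j ∈ (x k).1.2.1) := by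
    intro k l hkl
    induction l, hkl using Nat.le_induction with
    | base => exact ⟨le_rfl, fun _ _ => Iff.rfl⟩
    | succ l _ ih =>
      rw [hx l]
      exact ⟨ih.1.trans (hF (x l)).1, fun j hj =>
        ((hF (x l)).2.1 j (lt_of_lt_of_le hj ih.1)).trans (ih.2 j hj)⟩
  have hval : ∀ k : ℕ, (k : ℝ) / 4 ≤ B (x k).1.2.2 (ker e t (x k).1.2.1) := by
    intro k
    induction k with
    | zero => simp [x, x0]
    | succ k ih =>
      have h := (hF (x k)).2.2
      rw [hx k]
      push_cast
      linarith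
  refine ⟨fun j => ∃ l, j ∈ (x l).1.2.1, ⟨0, by simp [x, x0]⟩, fun k => ?_⟩
  refine ⟨(x k).1.1, (x k).1.2.2, (x k).2.2.1, (x k).2.2.2, ?_⟩
  have hfil : (Finset.range (x k).1.1).filter (fun j => ∃ l, j ∈ (x l).1.2.1) = (x k).1.2.1 := by
    ext j
    rw [Finset.mem_filter, Finset.mem_range]
    constructor
    · rintro ⟨hj, l, hl⟩
      rcases le_total k l with h | h
      · exact ((hmono k l h).2 j hj).1 hl
      · exact ((hmono l k h).2 j ((x l).2.1 j hl)).2 hl
    · intro hj
      exact ⟨(x k).2.1 j hj, k, hj⟩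
  have h := hval k
  rw [← hfil] at h
  convert h

omit ho in
lemma ker_pos (ht : e 0 t ≠ 0) {T : Finset ℕ} (h0 : 0 ∈ T) : 0 < ker e t T t := by
  unfold ker
  rw [ContinuousMap.sum_apply]
  refine Finset.sum_pos' (fun j _ => ?_) ⟨0, h0, ?_⟩
  · rw [ContinuousMap.smul_apply, smul_eq_mul, div_mul_eq_mul_div]
    exact div_nonneg (mul_self_nonneg _) (B_pos (hn j)).le
  · rw [ContinuousMap.smul_apply, smul_eq_mul, div_mul_eq_mul_div]
    exact div_pos (mul_self_pos.2 ht) (B_pos (hn 0))

lemma B_ker_ker {T U : Finset ℕ} (h : T ⊆ U) : B (ker e t T) (ker e t U) = ker e t T t := by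
  conv_lhs => rw [ker]
  conv_rhs => rw [ker]
  rw [map_sum, LinearMap.sum_apply, ContinuousMap.sum_apply]
  refine Finset.sum_congr rfl fun j hj => ?_
  rw [map_smul, LinearMap.smul_apply, B_ker ho hn, if_pos (h hj), ContinuousMap.smul_apply]

lemma shift (hd : Dense (Submodule.span ℝ (range e) : Set C(unitInterval, ℝ))) (ht : e 0 t ≠ 0) :
    ∃ φ : ℕ → C(unitInterval, ℝ), ClosedOrthogonal φ ∧
      (∀ n, φ n - e (n + 1) ∈ Submodule.span ℝ (e '' Iio (n + 1))) ∧
      ∀ n, B (e 0) (φ n) = 0 ∨ φ n t = 0 := by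
  classical
  obtain ⟨S, hS0, hS⟩ := exists_set ho hn t hd
  let K : ℕ → C(unitInterval, ℝ) := fun n => ker e t ((Finset.range n).filter S)
  have hK : ∀ i n, B (e i) (K n) = if i < n ∧ S i then e i t else 0 := by
    intro i n
    simp only [K, B_ker ho hn, Finset.mem_filter, Finset.mem_range]
  have hKK : ∀ m n, m ≤ n → B (K m) (K n) = K m t := fun m n h =>
    B_ker_ker ho hn t (Finset.filter_subset_filter _ (Finset.range_mono h))
  have hpos : ∀ n, 0 < K (n + 1) t := fun n =>
    ker_pos hn t ht (Finset.mem_filter.2 ⟨Finset.mem_range.2 (Nat.succ_pos n), hS0⟩)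
  have hKmem : ∀ n, K n ∈ Submodule.span ℝ (e '' Iio n) := fun n =>
    Submodule.sum_mem _ fun j hj => Submodule.smul_mem _ _
      (mem_level e (Finset.mem_range.1 (Finset.mem_filter.1 hj).1))
  let s : ℕ → ℝ := fun j => if S j then e j t else 0
  have hK' : ∀ i n, i < n → B (e i) (K n) = s i := by
    intro i n h
    simp only [hK, s, h, true_and]
  have hK'' : ∀ i n, n ≤ i → B (e i) (K n) = 0 := by
    intro i n h
    rw [hK, if_neg (fun h' => absurd h'.1 (not_lt.2 h))]
  let φ : ℕ → C(unitInterval, ℝ) := fun n => e (n + 1) - (s (n + 1) / K (n + 1) t) • K (n + 1)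
  have horth : ∀ m n, m < n → B (φ m) (φ n) = 0 := by
    intro m n h
    have h1 : B (φ m) (e (n + 1)) = 0 := by
      simp only [φ, map_sub, map_smul, LinearMap.sub_apply, LinearMap.smul_apply]
      rw [ho (m + 1) (n + 1) (by omega), B_comm (K (m + 1)), hK'' (n + 1) (m + 1) (by omega)]
      simp
    have h2 : B (φ m) (K (n + 1)) = 0 := by
      simp only [φ, map_sub, map_smul, LinearMap.sub_apply, LinearMap.smul_apply]
      rw [hK' (m + 1) (n + 1) (by omega), hKK (m + 1) (n + 1) (by omega), smul_eq_mul,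
        div_mul_cancel₀ _ (hpos m).ne', sub_self]
    change B (φ m) (e (n + 1) - (s (n + 1) / K (n + 1) t) • K (n + 1)) = 0
    rw [map_sub, map_smul, h1, h2]
    simp
  have hne : ∀ n, φ n ≠ 0 := by
    intro n h
    have h1 : B (e (n + 1)) (φ n) = B (e (n + 1)) (e (n + 1)) := by
      simp only [φ, map_sub, map_smul]
      rw [hK'' (n + 1) (n + 1) le_rfl]
      simp
    rw [h, map_zero] at h1
    exact (B_pos (hn (n + 1))).ne h1
  have hs0 : s 0 = e 0 t := by simp only [s, hS0, if_true]
  have hW : ∀ j, e j - (s j / e 0 t) • e 0 ∈ Submodule.span ℝ (range φ) := by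
    intro j
    induction j using Nat.strong_induction_on with
    | _ j ih =>
      cases j with
      | zero =>
        rw [hs0, div_self ht, one_smul, sub_self]
        exact zero_mem _
      | succ n =>
        have h1 : K (n + 1) - (K (n + 1) t / e 0 t) • e 0 ∈ Submodule.span ℝ (range φ) := by
          have h2 : K (n + 1) - (K (n + 1) t / e 0 t) • e 0 =
              ∑ j ∈ (Finset.range (n + 1)).filter S,
                (e j t / B (e j) (e j)) • (e j - (s j / e 0 t) • e 0) := by
            simp only [K, ker, ContinuousMap.sum_apply, Finset.sum_div, Finset.sum_smul,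
              ← Finset.sum_sub_distrib]
            refine Finset.sum_congr rfl fun j hj => ?_
            have hj' : s j = e j t := by simp only [s, (Finset.mem_filter.1 hj).2, if_true]
            rw [smul_sub, smul_smul, hj', ContinuousMap.smul_apply, smul_eq_mul, mul_div_assoc]
          rw [h2]
          exact Submodule.sum_mem _ fun j hj => Submodule.smul_mem _ _
            (ih j (Finset.mem_range.1 (Finset.mem_filter.1 hj).1))
        have h3 : e (n + 1) - (s (n + 1) / e 0 t) • e 0 = φ n +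
            (s (n + 1) / K (n + 1) t) • (K (n + 1) - (K (n + 1) t / e 0 t) • e 0) := by
          have h4 : s (n + 1) / K (n + 1) t * (K (n + 1) t / e 0 t) = s (n + 1) / e 0 t := by
            have := (hpos n).ne'
            field_simp
          simp only [φ]
          rw [smul_sub, smul_smul, h4]
          abel
        rw [h3]
        exact add_mem (Submodule.subset_span ⟨n, rfl⟩) (Submodule.smul_mem _ _ h1)
  have hW' : ∀ n q, q ∈ Submodule.span ℝ (e '' Iio n) →
      q - (B q (K n) / e 0 t) • e 0 ∈ Submodule.span ℝ (range φ) := by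
    intro n q hq
    induction hq using Submodule.span_induction with
    | mem x hx =>
      obtain ⟨j, hj, rfl⟩ := hx
      rw [hK' j n hj]
      exact hW j
    | zero => simp
    | add x y _ _ hx hy =>
      have h := add_mem hx hy
      rw [map_add, LinearMap.add_apply, add_div, add_smul]
      convert h using 1
      abel
    | smul a x _ hx =>
      have h := Submodule.smul_mem _ a hx
      rw [map_smul, LinearMap.smul_apply, smul_eq_mul, mul_div_assoc, mul_smul, ← smul_sub]
      exact h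
  have he0 : e 0 ∈ (Submodule.span ℝ (range φ)).topologicalClosure := by
    rw [← SetLike.mem_coe, Submodule.topologicalClosure_coe, Metric.mem_closure_iff]
    intro ε hε
    obtain ⟨k, hk⟩ := exists_nat_gt (4 * |e 0 t| / ε)
    obtain ⟨n, q, h1, h2, h3⟩ := hS k
    have hpos0 : 0 < |e 0 t| := abs_pos.2 ht
    have hk' : |e 0 t| < ε * ((k : ℝ) / 4) := by
      rw [div_lt_iff₀ hε] at hk
      linarith
    have hk0 : 0 < (k : ℝ) / 4 := by
      by_contra hc
      have := mul_nonpos_of_nonneg_of_nonpos hε.le (not_lt.1 hc)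
      linarith
    have h3' : (k : ℝ) / 4 ≤ B q (K n) := by convert h3
    have hL : 0 < B q (K n) := lt_of_lt_of_le hk0 h3'
    refine ⟨(-(e 0 t / B q (K n))) • (q - (B q (K n) / e 0 t) • e 0),
      Submodule.smul_mem _ _ (hW' n q h1), ?_⟩
    have h4 : e 0 - (-(e 0 t / B q (K n))) • (q - (B q (K n) / e 0 t) • e 0) =
        (e 0 t / B q (K n)) • q := by
      have h5 : e 0 t / B q (K n) * (B q (K n) / e 0 t) = 1 := by
        have := hL.ne'
        field_simp
      rw [neg_smul, sub_neg_eq_add, smul_sub, smul_smul, h5, one_smul]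
      abel
    rw [dist_eq_norm, h4, norm_smul, Real.norm_eq_abs, abs_div, abs_of_pos hL]
    have h6 : |e 0 t| / B q (K n) < ε := by
      rw [div_lt_iff₀ hL]
      exact lt_of_lt_of_le hk' (mul_le_mul_of_nonneg_left h3' hε.le)
    calc |e 0 t| / B q (K n) * ‖q‖ ≤ |e 0 t| / B q (K n) * 1 :=
          mul_le_mul_of_nonneg_left h2.le (div_nonneg hpos0.le hL.le)
      _ < ε := by rw [mul_one]; exact h6
  have hle : Submodule.span ℝ (range e) ≤ (Submodule.span ℝ (range φ)).topologicalClosure := by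
    rw [Submodule.span_le]
    rintro _ ⟨j, rfl⟩
    have h := add_mem (Submodule.le_topologicalClosure _ (hW j))
      (Submodule.smul_mem _ (s j / e 0 t) he0)
    rw [sub_add_cancel] at h
    exact h
  refine ⟨φ, ⟨fun m n h => ?_, hne, ?_⟩, fun n => ?_, fun n => ?_⟩
  · rcases lt_or_gt_of_ne h with h | h
    · exact horth m n h
    · rw [ip_comm]
      exact horth n m h
  · have h : Dense ((Submodule.span ℝ (range φ)).topologicalClosure : Set C(unitInterval, ℝ)) :=
      hd.mono hle
    rw [Submodule.topologicalClosure_coe] at h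
    exact h.of_closure
  · simp only [φ, sub_sub_cancel_left]
    exact neg_mem (Submodule.smul_mem _ _ (hKmem (n + 1)))
  · by_cases h : S (n + 1)
    · right
      simp only [φ, s, h, if_true, ContinuousMap.sub_apply, ContinuousMap.smul_apply, smul_eq_mul]
      rw [div_mul_cancel₀ _ (hpos n).ne', sub_self]
    · left
      simp only [φ, s, h, if_false, zero_div, zero_smul, sub_zero]
      exact ho 0 (n + 1) (by omega)

end Orth

theorem result (u : ℕ → C(unitInterval, ℝ)) (hli : LinearIndependent ℝ u)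
    (hd : Dense (Submodule.span ℝ (Set.range u) : Set C(unitInterval, ℝ)))
    (t : unitInterval) (ht : u 0 t ≠ 0) :
    ∃ φ : ℕ → C(unitInterval, ℝ), ClosedOrthogonal φ ∧
      (∀ n, φ n - u (n + 1) ∈ Submodule.span ℝ (u '' Set.Iic n)) ∧
      (∀ N, partialSum φ (u 0) N t = 0) ∧
      ∀ c : ℕ → ℕ → ℝ, ¬ UniformlySummable φ c (u 0) := by
  have hd' : Dense (Submodule.span ℝ (range (gs u)) : Set C(unitInterval, ℝ)) := by
    refine hd.mono ?_
    have h : Submodule.span ℝ (range u) ≤ Submodule.span ℝ (range (gs u)) := by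
      rw [Submodule.span_le]
      rintro _ ⟨j, rfl⟩
      exact u_mem u j
    exact h
  obtain ⟨φ, h1, h2, h3⟩ := shift (gs_orth hli) (gs_ne hli) t hd' (by rw [gs_zero]; exact ht)
  have hz : ∀ N, partialSum φ (u 0) N t = 0 := by
    intro N
    unfold partialSum
    rw [ContinuousMap.sum_apply]
    refine Finset.sum_eq_zero fun n _ => ?_
    rw [ContinuousMap.smul_apply, smul_eq_mul]
    rcases h3 n with h | h
    · rw [gs_zero, B_apply] at h
      rw [h, zero_div, zero_mul]
    · rw [h, mul_zero]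
  refine ⟨φ, h1, fun n => ?_, hz, ?_⟩
  · have hI : Set.Iic n = Iio (n + 1) := by
      ext j
      simp only [mem_Iic, mem_Iio]
      omega
    rw [hI]
    have h4 : Submodule.span ℝ (gs u '' Iio (n + 1)) ≤ Submodule.span ℝ (u '' Iio (n + 1)) := by
      rw [Submodule.span_le]
      rintro _ ⟨j, hj, rfl⟩
      exact gs_mem' u hj
    have h5 := add_mem (h4 (h2 n)) (gs_mem u (n + 1))
    simpa using h5
  · rintro c ⟨σ, k1, k2⟩
    have k3 : ∀ m, σ m t = 0 := by
      intro m
      have h := (k1 m).tendsto_at t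
      simp only [hz, mul_zero, Finset.sum_const_zero] at h
      exact tendsto_nhds_unique h tendsto_const_nhds
    have k4 := k2.tendsto_at t
    simp only [k3] at k4
    exact ht (tendsto_nhds_unique k4 tendsto_const_nhds)

end Pool.Agent.Results.MP_ae49d3_an.OneStepShift
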