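import Pool.Agent.Lib.MP_ae49d3_an.NullA

namespace Pool.Agent.Results.MP_ae49d3_an.NullSets

open MeasureTheory Set Filter Topology Submodule Pool.Agent.Lib.MP_ae49d3_an
open scoped RealInnerProductSpace

/-- The `L²[0,1]` inner product (Lebesgue measure) of two continuous functions. -/
noncomputable def ip (f g : C(unitInterval, ℝ)) : ℝ := ∫ x, f x * g x

/-- The partial sum of the expansion of `f` in `φ` over the first `N + 1` terms. -/
noncomputable def partialSum (φ : ℕ → C(unitInterval, ℝ)) (f : C(unitInterval, ℝ)) (N : ℕ) :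
    C(unitInterval, ℝ) :=
  ∑ n ∈ Finset.range (N + 1), (ip f (φ n) / ip (φ n) (φ n)) • φ n

/-- An orthogonal system of nonzero continuous functions that is closed in `C[0,1]`. -/
def ClosedOrthogonal (φ : ℕ → C(unitInterval, ℝ)) : Prop :=
  (∀ m n, m ≠ n → ip (φ m) (φ n) = 0) ∧ (∀ n, φ n ≠ 0) ∧
    Dense (Submodule.span ℝ (Set.range φ) : Set C(unitInterval, ℝ))

/-- The expansion of `f` in `φ` is summable to `f x` at the point `x` by the matrix `c`. -/
def SummableAt (φ : ℕ → C(unitInterval, ℝ)) (c : ℕ → ℕ → ℝ) (f : C(unitInterval, ℝ))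
    (x : unitInterval) : Prop :=
  ∃ σ : ℕ → ℝ,
    (∀ m, Tendsto (fun L : ℕ => ∑ N ∈ Finset.range L, c m N * partialSum φ f N x) atTop
      (𝓝 (σ m))) ∧ Tendsto σ atTop (𝓝 (f x))

noncomputable abbrev T : C(unitInterval, ℝ) →L[ℝ] Lp ℝ 2 (volume : Measure unitInterval) :=
  ContinuousMap.toLp 2 volume ℝ

lemma ip_eq (f g : C(unitInterval, ℝ)) : ip f g = ⟪T f, T g⟫ := by
  rw [ContinuousMap.inner_toLp]
  simp [ip, mul_comm]

lemma T_inj : Function.Injective T := by
  have : (volume : Measure unitInterval).IsOpenPosMeasure := ⟨fun U hU hne h0 => by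
    obtain ⟨a, b, hab, hs⟩ := hU.exists_Ioo_subset hne
    have h1 := measure_mono_null hs h0
    rw [unitInterval.volume_Ioo, ENNReal.ofReal_eq_zero] at h1
    have h2 : (a : ℝ) < b := hab
    linarith⟩
  exact ContinuousMap.toLp_injective _

lemma integ (f g : C(unitInterval, ℝ)) : Integrable (fun x => f x * g x) :=
  (f.continuous.mul g.continuous).integrable_of_hasCompactSupport
    (HasCompactSupport.of_compactSpace _)

lemma sq_le (g : C(unitInterval, ℝ)) {U : Set unitInterval} {M : ℝ}
    (h0 : ∀ x, x ∉ U → g x = 0) (hM : ∀ x, |g x| ≤ M) : ‖T g‖ ^ 2 ≤ M ^ 2 * volume.real U := by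
  rw [← real_inner_self_eq_norm_sq, ← ip_eq, ip, ← setIntegral_eq_integral_of_forall_compl_eq_zero
    (s := U) fun x hx => by rw [h0 x hx, mul_zero]]
  refine (Real.le_norm_self _).trans (norm_setIntegral_le_of_norm_le_const (measure_lt_top _ _)
    fun x _ => ?_)
  rw [Real.norm_eq_abs, abs_mul, pow_two]
  exact mul_self_le_mul_self (abs_nonneg _) (hM x)

def Z (K : Set unitInterval) : Submodule ℝ C(unitInterval, ℝ) where
  carrier := {g | ∀ x ∈ K, g x = 0}
  add_mem' := fun a b x hx => by simp [a x hx, b x hx]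
  zero_mem' := fun x _ => rfl
  smul_mem' := fun c g a x hx => by simp [a x hx]

lemma Z_dense {K : Set unitInterval} (hK : IsClosed K) (h0 : volume K = 0)
    (w : C(unitInterval, ℝ)) (ε : ℝ) (hε : ε > 0) : ∃ z ∈ Z K, ‖T z - T w‖ < ε := by
  have p0 : 0 < ε ^ 2 / (‖w‖ ^ 2 + 1) := by positivity
  obtain ⟨U, u1, u2, u3⟩ := K.exists_isOpen_lt_of_lt (μ := volume)
    (ENNReal.ofReal (ε ^ 2 / (‖w‖ ^ 2 + 1))) (by rw [h0]; exact ENNReal.ofReal_pos.2 p0)
  obtain ⟨χ, c0, c1, c2⟩ := exists_continuous_zero_one_of_isClosed hK u2.isClosed_compl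
    (disjoint_compl_right.mono_left u1)
  refine ⟨χ * w, fun x hx => by simp [c0 hx], lt_of_pow_lt_pow_left₀ 2 hε.le ?_⟩
  rw [← map_sub]
  refine (sq_le (M := ‖w‖) (U := U) _ (fun x hx => by simp [c1 hx]) fun x => ?_).trans_lt ?_
  · have := c2 x
    rw [ContinuousMap.sub_apply, ContinuousMap.mul_apply, ← sub_one_mul, abs_mul]
    exact (mul_le_of_le_one_left (abs_nonneg _) (abs_le.2 ⟨by linarith [this.1],
      by linarith [this.2]⟩)).trans (w.norm_coe_le_norm x)
  · have h1 : volume.real U < ε ^ 2 / (‖w‖ ^ 2 + 1) := ENNReal.toReal_lt_of_lt_ofReal u3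
    rw [lt_div_iff₀ (by positivity)] at h1
    nlinarith [measureReal_nonneg (μ := volume) (s := U)]

lemma best {φ : ℕ → C(unitInterval, ℝ)} (h : ClosedOrthogonal φ) (f : C(unitInterval, ℝ)) {ε : ℝ}
    (hε : 0 < ε) : ∃ N, ‖T (f - partialSum φ f N)‖ ≤ ε := by
  obtain ⟨v, v1, v2⟩ := Metric.dense_iff.1 h.2.2 f ε hε
  obtain ⟨c, rfl⟩ := Finsupp.mem_span_range_iff_exists_finsupp.1 v2
  obtain ⟨N, hN⟩ := c.support.exists_nat_subset_range
  have o : ∀ a ∈ φ '' Finset.range (N + 1), ⟪T a, T (f - partialSum φ f N)⟫ = 0 := by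
    rintro _ ⟨j, hj, rfl⟩
    have j0 : ⟪T (φ j), T (φ j)⟫ ≠ 0 := fun e =>
      h.2.1 j (T_inj (by rw [inner_self_eq_zero.1 e, map_zero]))
    rw [map_sub, partialSum, map_sum, inner_sub_right, inner_sum, Finset.sum_eq_single_of_mem j hj
      fun n _ hn => by rw [map_smul, real_inner_smul_right, ← ip_eq (φ j), h.1 _ _ hn.symm, mul_zero],
      map_smul, real_inner_smul_right, ip_eq, ip_eq, div_mul_cancel₀ _ j0, real_inner_comm, sub_self]
  have m : partialSum φ f N - c.sum (fun i a => a • φ i) ∈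
      span ℝ (φ '' Finset.range (N + 1)) :=
    sub_mem (sum_mem fun n hn => smul_mem _ _ (subset_span ⟨n, hn, rfl⟩))
      (sum_mem fun n hn => smul_mem _ _ (subset_span
        ⟨n, Finset.range_mono (Nat.le_succ N) (hN hn), rfl⟩))
  have o2 := NullA.orth_span T o m
  have e : f - c.sum (fun i a => a • φ i) =
      (partialSum φ f N - c.sum fun i a => a • φ i) + (f - partialSum φ f N) := by abel
  have k := sq_le (f - c.sum fun i a => a • φ i) (U := univ) (M := ε) (by simp) fun x =>
    ((f - c.sum fun i a => a • φ i).norm_coe_le_norm x).trans (by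
      rw [← dist_eq_norm, dist_comm]; exact v1.le)
  rw [e, map_add, norm_add_sq_real, o2, probReal_univ] at k
  refine ⟨N, le_of_sq_le_sq (le_trans ?_ (k.trans_eq (mul_one _))) hε.le⟩
  nlinarith [sq_nonneg ‖T (partialSum φ f N - c.sum fun i a => a • φ i)‖]

theorem result (f : C(unitInterval, ℝ)) (hf : ∀ x, f x ≠ 0) (K : Set unitInterval) :
    (∃ φ : ℕ → C(unitInterval, ℝ), ClosedOrthogonal φ ∧
      ∀ (c : ℕ → ℕ → ℝ), ∀ x ∈ K, ¬ SummableAt φ c f x) ↔ volume (closure K) = 0 := by
  constructor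
  · rintro ⟨φ, h, hc⟩
    have z : ∀ N, ∀ x ∈ closure K, partialSum φ f N x = 0 := fun N =>
      closure_minimal (t := {x | partialSum φ f N x = 0}) (fun x hx => by
        by_contra k
        refine hc (fun _ M => if M = N then f x / partialSum φ f N x else 0) x hx
          ⟨fun _ => f x, fun _ => tendsto_const_nhds.congr' ?_, tendsto_const_nhds⟩
        filter_upwards [eventually_gt_atTop N] with L hL
        rw [Finset.sum_eq_single_of_mem N (Finset.mem_range.2 hL) fun M _ hM => by simp [hM],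
          if_pos rfl, div_mul_cancel₀ _ k])
        (isClosed_eq (partialSum φ f N).continuous continuous_const)
    by_contra k
    have p : 0 < ∫ x in closure K, f x * f x := by
      rw [setIntegral_pos_iff_support_of_nonneg_ae (Eventually.of_forall fun x => mul_self_nonneg _)
        (integ f f).integrableOn, Function.support_eq_univ (by simpa using hf), univ_inter]
      exact pos_iff_ne_zero.2 k
    obtain ⟨N, hN⟩ := best h f (half_pos (Real.sqrt_pos.2 p))
    have q : ∫ x in closure K, f x * f x ≤ ‖T (f - partialSum φ f N)‖ ^ 2 := by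
      rw [← real_inner_self_eq_norm_sq, ← ip_eq, ip]
      refine le_trans (le_of_eq (setIntegral_congr_fun isClosed_closure.measurableSet
        fun x hx => ?_)) (setIntegral_le_integral (integ _ _)
          (Eventually.of_forall fun x => mul_self_nonneg _))
      simp [z N x hx]
    nlinarith [Real.sq_sqrt p.le, norm_nonneg (T (f - partialSum φ f N)), Real.sqrt_pos.2 p]
  · intro h0
    obtain ⟨φ, p1, p2, p3, p4⟩ := NullA.system T (Z (closure K ∪ {0})) T_inj
      (Z_dense (isClosed_closure.union isClosed_singleton)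
        (measure_union_null h0 (measure_singleton _))) (w := f) (fun q => hf 0 (q 0 (by simp))) f
    refine ⟨φ, ⟨fun m n h => by rw [ip_eq, p1 m n h], p2, p3⟩, fun c x hx ⟨σ, k1, k2⟩ => ?_⟩
    have hz : ∀ N, partialSum φ f N x = 0 := fun N => by
      rw [partialSum, ContinuousMap.sum_apply]
      refine Finset.sum_eq_zero fun n _ => ?_
      rw [ContinuousMap.smul_apply, smul_eq_mul]
      rcases p4 n with h | h
      · rw [h x (Or.inl (subset_closure hx)), mul_zero]
      · rw [ip_eq, h, zero_div, zero_mul]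
    have k3 : ∀ m, σ m = 0 := fun m => by
      have h := k1 m
      simp only [hz, mul_zero, Finset.sum_const_zero] at h
      exact tendsto_nhds_unique h tendsto_const_nhds
    rw [show σ = fun _ => 0 from funext k3] at k2
    exact hf x (tendsto_nhds_unique k2 tendsto_const_nhds)

end Pool.Agent.Results.MP_ae49d3_an.NullSets
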