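import Pool.Agent.Lib.MP_ae49d3_an.H16.Pair

/-! An orthogonal system of cosine polynomials, closed in `C[0,1]`, such that every single
continuous function has a summation matrix, while two functions have no common one. -/

namespace Pool.Agent.Results.MP_ae49d3_an.StrongNoPair

open Pool.Agent.Lib.MP_ae49d3_an.H16

theorem result : ∃ φ : ℕ → CI,
    (∀ n, φ n ∈ Submodule.span ℝ (Set.range cs)) ∧ (∀ n, φ n ≠ 0) ∧
    (∀ m n, m ≠ n → ip (φ m) (φ n) = 0) ∧
    Dense ((Submodule.span ℝ (Set.range φ) : Submodule ℝ CI) : Set CI) ∧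
    (∀ f, ∃ c, Sums φ c f) ∧
    ∃ f₁ f₂, ∀ c, ¬ (Sums φ c f₁ ∧ Sums φ c f₂) :=
  main

end Pool.Agent.Results.MP_ae49d3_an.StrongNoPair
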