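import Mathlib
import Pool.Agent.Lib.MP_ae49d3_an.H39WinG
import Pool.Agent.Lib.MP_ae49d3_an.H39WinH

namespace Pool.Agent.Results.MP_ae49d3_an.WindowExact

open Pool.Agent.Results.MP_ae49d3_an.OneStepShift Pool.Agent.Lib.MP_ae49d3_an.H39Win

theorem result (w : ℕ → ℝ) (hw : Monotone w) (h0 : 0 < w 0) :
    (∀ (φ : ℕ → C(unitInterval, ℝ)) (K : ℝ), ClosedOrthogonal φ →
      InWindow φ (fun n => K * w n) →
      ∃ c : ℕ → ℕ → ℝ, ∀ f : C(unitInterval, ℝ), UniformlySummable φ c f) ↔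
    ¬ Summable (fun n => 1 / w n ^ 2) := by
  constructor
  · intro h hs
    obtain ⟨φ, K, h1, h2, f, h3, hz⟩ := negative' hw h0 hs
    obtain ⟨c, hc⟩ := h φ K h1 h2
    obtain ⟨σ, k1, k2⟩ := hc f
    have k3 : ∀ m, σ m 0 = 0 := by
      intro m
      have h := (k1 m).tendsto_at 0
      simp only [hz, mul_zero, Finset.sum_const_zero] at h
      exact tendsto_nhds_unique h tendsto_const_nhds
    have k4 := k2.tendsto_at 0
    simp only [k3, h3] at k4
    exact one_ne_zero (tendsto_nhds_unique k4 tendsto_const_nhds)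
  · intro hs φ K h1 h2
    exact ⟨_, fun f => positive' h1 hw h0 h2 hs f⟩

end Pool.Agent.Results.MP_ae49d3_an.WindowExact
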